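import Pool.Agent.Helper75.PZ.GoalsA

/-!
# Packet PZ-BIN (MP_acfd82_an): the splitting rule with two pieces
-/

namespace Pool.Agent.Helper39.PZ

open Pool.Agent.Helper75.PZ

/-- The numerical core. -/
theorem num (e D a0 a1 a2 a3 u v : ℝ) (he0 : 0 ≤ e) (he : e ≤ 1 / 8)
    (h0 : 0 ≤ a0) (h1 : 0 ≤ a1) (h3 : 0 ≤ a3)
    (k0 : a0 ≤ 1 / 4 * D) (k3 : a3 ≤ 1 / 4 * D)
    (hm : (1 - 2 * e) * (a0 + a3 + a1) + a2 ≤ D) (h12 : a1 ≤ a2)
    (hu : u ≤ a0 + a1) (hv : v ≤ a2 + a3) (hD : 1 / 4 * D < u) :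
    u ≤ 7 / 8 * D ∧ v ≤ 7 / 8 * D ∧ u + v ≤ (1 + 2 * e) * D := by
  have hD0 : 0 ≤ D := by linarith
  refine ⟨?_, ?_, ?_⟩
  · -- (2 - 2 e) a1 <= D - (1 - 2 e) a0
    have e1 : e * a3 ≤ 1 / 8 * a3 := by nlinarith
    have e2 : e * (a0 + a1) ≤ 1 / 8 * (a0 + a1) := by nlinarith
    nlinarith
  · have e1 : e * a3 ≤ e * (1 / 4 * D) := by nlinarith
    have e2 : (1 - 2 * e) * (1 / 4 * D) ≤ (1 - 2 * e) * (a0 + a1) := by
      apply mul_le_mul_of_nonneg_left <;> linarith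
    have e3 : e * D ≤ 1 / 8 * D := by nlinarith
    nlinarith
  · have e1 : e * (a0 + a3 + a1) ≤ 1 / 8 * (a0 + a3 + a1) := by
      apply mul_le_mul_of_nonneg_right he; linarith
    have e2 : a0 + a3 + a1 ≤ D := by nlinarith
    have e3 : e * (a0 + a3 + a1) ≤ e * D := mul_le_mul_of_nonneg_left e2 he0
    nlinarith

/-- Packet BIN. -/
theorem bin (hs : P_SUP) : P_BIN := by
  intro M _ _ e x y he0 he hZ
  rcases eq_or_ne x y with rfl | hxy
  · exact ⟨x, by simp, by simp, by simp⟩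
  obtain ⟨p1, p2, p3, k0, k3, hm, hc⟩ :=
    hs M e (1 / 4) x y he0 (by linarith) (by norm_num) (by norm_num) hxy hZ
  refine ⟨p2, ?_⟩
  have t1 : dist x p2 ≤ dist x p1 + dist p1 p2 := dist_triangle _ _ _
  have t2 : dist p2 y ≤ dist p2 p3 + dist p3 y := dist_triangle _ _ _
  rcases hc with ⟨h12, hD⟩ | ⟨h21, hD⟩
  · rw [min_eq_left h12, max_eq_right h12] at hm
    exact num e (dist x y) _ _ _ _ _ _ he0 he dist_nonneg dist_nonneg dist_nonneg k0 k3 hm h12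
      t1 t2 hD
  · rw [min_eq_right h21, max_eq_left h21] at hm
    have hm' : (1 - 2 * e) * (dist p3 y + dist x p1 + dist p2 p3) + dist p1 p2 ≤ dist x y := by
      have : dist p3 y + dist x p1 + dist p2 p3 = dist x p1 + dist p3 y + dist p2 p3 := by ring
      rw [this]; exact hm
    obtain ⟨a, b, c⟩ := num e (dist x y) (dist p3 y) (dist p2 p3) (dist p1 p2) (dist x p1)
      (dist p2 y) (dist x p2) he0 he dist_nonneg dist_nonneg dist_nonneg k3 k0 hm' h21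
      (by linarith) (by linarith) hD
    exact ⟨b, a, by linarith⟩

end Pool.Agent.Helper39.PZ
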